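import Pool.Agent.CPT.StmtsA

set_option autoImplicit false

namespace Pool.Agent.CPT.H16

open MvPolynomial Pool.Agent.BSH Pool.Agent.CPT

/-- a linear form -/
noncomputable def lf {E : Type} [Field E] {n : ℕ} (a : Fin n → E) : MvPolynomial (Fin n) E :=
  ∑ i, C (a i) * X i

/-- the set of the linear forms of a list -/
def SL {E : Type} [Field E] {n : ℕ} (LF : List (Fin n → E)) : Set (MvPolynomial (Fin n) E) :=
  {x | ∃ a ∈ LF, x = lf a}

theorem dec {E : Type} [Field E] {n : ℕ} (l : List (MvPolynomial (Fin n) E))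
    (x : MvPolynomial (Fin n) E) (hx : x ∈ sp E (Set.range X) l) :
    ∃ (a : Fin n → E), ∃ y ∈ Submodule.span E ({1} ∪ {x | x ∈ l}), x = lf a + y := by
  unfold sp at hx
  have h1 : ({1} ∪ Set.range X ∪ {x | x ∈ l} : Set (MvPolynomial (Fin n) E))
      = Set.range X ∪ ({1} ∪ {x | x ∈ l}) := by
    rw [Set.union_comm {1} (Set.range X), Set.union_assoc]
  rw [h1, Submodule.span_union, Submodule.mem_sup] at hx
  obtain ⟨z, hz, y, hy, hzy⟩ := hx
  obtain ⟨c, hc⟩ := (Submodule.mem_span_range_iff_exists_fun E).mp hz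
  refine ⟨c, y, hy, ?_⟩
  rw [← hzy, ← hc]
  unfold lf
  congr 1
  exact Finset.sum_congr rfl (fun i _ => smul_eq_C_mul _ _)

theorem span_sub {E A : Type} [Field E] [CommRing A] [Algebra E A] (S : Subalgebra E A)
    (l : List A) (hl : ∀ g ∈ l, g ∈ S) (y : A) (hy : y ∈ Submodule.span E ({1} ∪ {x | x ∈ l})) :
    y ∈ S := by
  have h : Submodule.span E ({1} ∪ {x | x ∈ l}) ≤ Subalgebra.toSubmodule S := by
    rw [Submodule.span_le]
    rintro x (hx | hx)
    · rw [Set.mem_singleton_iff] at hx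
      rw [hx]
      exact S.one_mem
    · exact hl x hx
  exact h hy

theorem SL_mono {E : Type} [Field E] {n : ℕ} (a : Fin n → E) (LF : List (Fin n → E)) :
    SL LF ⊆ SL (a :: LF) := by
  rintro x ⟨b, hb, rfl⟩
  exact ⟨b, List.mem_cons_of_mem _ hb, rfl⟩

theorem run {E : Type} [Field E] {n : ℕ} (l : List (MvPolynomial (Fin n) E))
    (h : Ch E (Set.range X) l) : ∃ LF : List (Fin n → E), LF.length = 2 * l.length ∧
      ∀ g ∈ l, g ∈ Algebra.adjoin E (SL LF) := by
  induction l with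
  | nil => exact ⟨[], rfl, fun g hg => by cases hg⟩
  | cons g l ih =>
    obtain ⟨hl, a, ha, b, hb, hg⟩ := h
    obtain ⟨LF, hLF, hmem⟩ := ih hl
    obtain ⟨u, y, hy, rfl⟩ := dec l a ha
    obtain ⟨v, z, hz, rfl⟩ := dec l b hb
    have hsub : Algebra.adjoin E (SL LF) ≤ Algebra.adjoin E (SL (u :: v :: LF)) :=
      Algebra.adjoin_mono ((SL_mono v LF).trans (SL_mono u _))
    have hl' : ∀ g ∈ l, g ∈ Algebra.adjoin E (SL (u :: v :: LF)) := fun g hg => hsub (hmem g hg)
    have hu : lf u ∈ Algebra.adjoin E (SL (u :: v :: LF)) :=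
      Algebra.subset_adjoin ⟨u, List.mem_cons_self, rfl⟩
    have hv : lf v ∈ Algebra.adjoin E (SL (u :: v :: LF)) :=
      Algebra.subset_adjoin ⟨v, List.mem_cons_of_mem _ List.mem_cons_self, rfl⟩
    refine ⟨u :: v :: LF, ?_, ?_⟩
    · rw [List.length_cons, List.length_cons, List.length_cons, hLF]
      ring
    · intro w hw
      rcases List.mem_cons.mp hw with hw | hw
      · rw [hw, hg]
        exact Subalgebra.mul_mem _ (Subalgebra.add_mem _ hu (span_sub _ l hl' y hy))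
          (Subalgebra.add_mem _ hv (span_sub _ l hl' z hz))
      · exact hl' w hw

/-- **Row ESS**. -/
theorem ess : EssStmt := by
  intro E _ n s F hF
  obtain ⟨l, hls, hch, hsp⟩ := hF
  obtain ⟨LF, hLF, hmem⟩ := run l hch
  obtain ⟨u, y, hy, rfl⟩ := dec l F hsp
  have hl' : ∀ g ∈ l, g ∈ Algebra.adjoin E (SL (u :: LF)) :=
    fun g hg => Algebra.adjoin_mono (SL_mono u LF) (hmem g hg)
  have hF1 : lf u + y ∈ Algebra.adjoin E (SL (u :: LF)) :=
    Subalgebra.add_mem _ (Algebra.subset_adjoin ⟨u, List.mem_cons_self, rfl⟩)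
      (span_sub _ l hl' y hy)
  have hlen : (u :: LF).length ≤ 2 * s + 1 := by
    rw [List.length_cons, hLF]
    omega
  refine ⟨fun j => (u :: LF).getD j 0, ?_⟩
  have h2 : SL (u :: LF) ⊆ Set.range
      (fun j : Fin (2 * s + 1) => ∑ i, C ((u :: LF).getD j 0 i) * X i) := by
    rintro x ⟨a, ha, rfl⟩
    obtain ⟨j, hj, hja⟩ := List.mem_iff_getElem.mp ha
    refine ⟨⟨j, lt_of_lt_of_le hj hlen⟩, ?_⟩
    show ∑ i, C ((u :: LF).getD j 0 i) * X i = lf a
    rw [List.getD_eq_getElem _ _ hj, hja]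
    rfl
  have h3 := Algebra.adjoin_mono (R := E) h2 hF1
  rw [Algebra.adjoin_range_eq_range_aeval] at h3
  obtain ⟨G, hG⟩ := h3
  exact ⟨G, hG.symm⟩

end Pool.Agent.CPT.H16
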